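import Pool.Agent.Helper341.Alt.W3.Sound
import Pool.Agent.Helper341.Alt.W3.Check
import Pool.Agent.Helper341.Alt.Asm
set_option autoImplicit false

/-!
In alternative rings: `N1 a b (as x y z) = 0`.
-/

namespace Pool.Agent.Helper341.Alt.W3
open Pool.Agent.Helper928.Nuc.Tens Pool.Agent.Helper341.Alt.Asm

section
variable {A : Type} [NonUnitalNonAssocRing A] (hA : IsAlt A) (a b x y : A)
include hA

lemma lwb (u : Mon) (n : ℕ) (h : (ex u).1 = n) : Bd n (lw u) := by subst h; exact (des hA 0 0 0 0 u).bl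
lemma rwb (u : Mon) (n : ℕ) (h : (ex u).1 = n) : Bd n (rw u) := by subst h; exact (des hA 0 0 0 0 u).br
lemma awb (u : Mon) (n : ℕ) (h : (ex u).1 = n) : Bd n (aw u) := by
  unfold aw; rw [app_eq]; exact (lwb hA u n h).append (sneg_bd (rwb hA u n h))
lemma xwb (u v : Mon) (n : ℕ) (h : (ex u).1 + (ex v).1 = n) : Bd n (xw u v) := by
  subst h; exact XX_bd 0 0 0 0 (des hA 0 0 0 0 u) (des hA 0 0 0 0 v)
lemma lwe (u : Mon) (n : ℕ) (h : (ex u).1 = n) : el a b x y n (lw u) = LL (val a b x y u) := by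
  subst h; exact (des hA a b x y u).l
lemma rwe (u : Mon) (n : ℕ) (h : (ex u).1 = n) : el a b x y n (rw u) = RR (val a b x y u) := by
  subst h; exact (des hA a b x y u).r
lemma awe (u : Mon) (n : ℕ) (h : (ex u).1 = n) : el a b x y n (aw u) = LL (val a b x y u) - RR (val a b x y u) := by
  unfold aw; rw [app_eq, el_append, el_sneg, lwe hA a b x y u n h, rwe hA a b x y u n h, sub_eq_add_neg]
lemma xwe (u v : Mon) (n : ℕ) (h : (ex u).1 + (ex v).1 = n) : el a b x y n (xw u v) =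
    LL (val a b x y u) * RR (val a b x y v) - RR (val a b x y v) * LL (val a b x y u) := by
  subst h; exact XX_el a b x y (des hA a b x y u) (des hA a b x y v)

lemma NNb : Bd 4 NN ∧ el a b x y 4 NN =
    - ((LL a - RR a) * ((LL (a * b) - LL (b * a)) * (LL a - RR a) + (LL a - RR a) * (LL a * RR b - RR b * LL a))) := by
  have h1 : Bd 2 (app (lw (.m .a .b)) (sneg (lw (.m .b .a)))) := by
    rw [app_eq]; exact (lwb hA _ 2 rfl).append (sneg_bd (lwb hA _ 2 rfl))
  have h2 : Bd 3 (app (scat 1 (app (lw (.m .a .b)) (sneg (lw (.m .b .a)))) (aw .a)) (scat 2 (aw .a) (xw .a .b))) := by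
    rw [app_eq (scat 1 _ _)]
    exact (scat_bd h1 (awb hA .a 1 rfl) rfl).append (scat_bd (awb hA .a 1 rfl) (xwb hA .a .b 2 rfl) rfl)
  unfold NN
  refine ⟨sneg_bd (scat_bd (awb hA .a 1 rfl) h2 rfl), ?_⟩
  rw [el_sneg, el_scat (m := 1) a b x y h2 rfl, app_eq (scat 1 _ _), el_append,
    el_scat (m := 2) (k := 1) a b x y (awb hA .a 1 rfl) rfl, el_scat (m := 1) (k := 2) a b x y (xwb hA .a .b 2 rfl) rfl,
    app_eq, el_append, el_sneg, awe hA a b x y .a 1 rfl, lwe hA a b x y (.m .a .b) 2 rfl,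
    lwe hA a b x y (.m .b .a) 2 rfl, xwe hA a b x y .a .b 2 rfl, ← sub_eq_add_neg]
  rfl

omit hA in
lemma e_add (f g : AddMonoid.End A) (c : A) : (f + g) c = f c + g c := rfl
omit hA in
lemma e_sub (f g : AddMonoid.End A) (c : A) : (f - g) c = f c - g c := rfl
omit hA in
lemma e_neg (f : AddMonoid.End A) (c : A) : (-f) c = - f c := rfl
omit hA in
lemma e_mul (f g : AddMonoid.End A) (c : A) : (f * g) c = f (g c) := rfl
omit hA in
lemma e_L (u c : A) : (LL u : AddMonoid.End A) c = u * c := rfl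
omit hA in
lemma e_R (u c : A) : (RR u : AddMonoid.End A) c = c * u := rfl

lemma X_apply (u v c : A) : (LL u * RR v - RR v * LL u : AddMonoid.End A) c = as u v c := by
  rw [hA.as_right u v c]
  simp only [e_sub, e_mul, e_L, e_R]
  unfold as
  abel

lemma NN_apply (c : A) : el a b x y 4 NN c = N1 a b c := by
  rw [(NNb hA a b x y).2, e_neg, e_mul, e_add, e_mul, e_mul, X_apply hA]
  unfold N1 qq br
  simp only [e_sub, e_L, e_R, sub_mul, mul_sub, mul_add, add_mul]
  abel

lemma Tb : Bd 6 T ∧ ∀ z, el a b x y 6 T z = N1 a b (as x y z) := by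
  unfold T
  refine ⟨scat_bd (NNb hA a b x y).1 (xwb hA .x .y 2 rfl) rfl, fun z => ?_⟩
  rw [el_scat (m := 4) (k := 2) a b x y (xwb hA .x .y 2 rfl) rfl, xwe hA a b x y .x .y 2 rfl, e_mul]
  have h1 : (LL (val a b x y Mon.x) * RR (val a b x y Mon.y) - RR (val a b x y Mon.y) * LL (val a b x y Mon.x) :
      AddMonoid.End A) z = as x y z := X_apply hA x y z
  rw [h1]
  exact NN_apply hA a b x y (as x y z)

/-- the identity -/
theorem I3_id (z : A) : N1 a b (as x y z) = 0 := by
  have h := cert_sound hA a b x y C 6 T (Tb hA a b x y).1 check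
  have h2 := (Tb hA a b x y).2 z
  rw [h] at h2
  exact h2.symm

end

end Pool.Agent.Helper341.Alt.W3
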