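import Pool.Agent.Helper341.Alt.W3.Word
set_option autoImplicit false

/-! Certificate data (found by computer). -/

namespace Pool.Agent.Helper341.Alt.W3

/-- decoding of lists of shifts: 20 bits shift, sign, 15 bits coefficient -/
noncomputable def de (c : ℕ) : ℕ → List (ℕ × (Bool × ℕ)) :=
  Nat.rec (motive := fun _ => ℕ → List (ℕ × (Bool × ℕ))) (fun _ => [])
    (fun _ ih x => (Nat.mod x 0x100000, (Nat.beq (Nat.mod (Nat.div x 0x100000) 2) 1,
      Nat.mod (Nat.div x 0x200000) 0x8000)) :: ih (Nat.div x 0x1000000000)) c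

def M0 : Mon := .m Mon.x Mon.b
def M1 : Mon := .m Mon.y Mon.b
def M2 : Mon := .m Mon.y Mon.x
def M3 : Mon := .m Mon.a Mon.x
def M4 : Mon := .m Mon.a Mon.y
def M5 : Mon := .m Mon.b Mon.a
def M6 : Mon := .m Mon.a Mon.a
def M7 : Mon := .m Mon.x Mon.a
def M8 : Mon := .m Mon.y Mon.a
def M9 : Mon := .m Mon.b Mon.y
def M10 : Mon := .m Mon.a Mon.b
def M11 : Mon := .m Mon.b Mon.x
def M12 : Mon := .m Mon.x M5
def M13 : Mon := .m Mon.y M5
def M14 : Mon := .m Mon.y M7
def M15 : Mon := .m M7 Mon.a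
def M16 : Mon := .m M8 Mon.a
def M17 : Mon := .m Mon.a M6
def M18 : Mon := .m Mon.x M6
def M19 : Mon := .m Mon.y M6
def M20 : Mon := .m M8 Mon.b
def M21 : Mon := .m Mon.b M6
def M22 : Mon := .m M6 Mon.y
def M23 : Mon := .m Mon.a M19
def M24 : Mon := .m Mon.x M17
def M25 : Mon := .m Mon.y M17
def M26 : Mon := .m Mon.y M18
def M27 : Mon := .m M19 Mon.b
def M28 : Mon := .m M1 M6
def M29 : Mon := .m Mon.y M21
def M30 : Mon := .m Mon.y M3
def M31 : Mon := .m M30 M6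
def M32 : Mon := .m M26 Mon.a
def M33 : Mon := .m Mon.y M24
def M34 : Mon := .m Mon.b M17
def M35 : Mon := .m Mon.y M34
def M36 : Mon := .m Mon.y M0
def M37 : Mon := .m M2 Mon.a
def M38 : Mon := .m M1 Mon.a
def M39 : Mon := .m Mon.y M10
def M40 : Mon := .m M7 Mon.b
def M41 : Mon := .m M0 Mon.a
def M42 : Mon := .m Mon.a M8
def M43 : Mon := .m Mon.x M4
def M44 : Mon := .m M43 Mon.a
def M45 : Mon := .m Mon.x Mon.y
def M46 : Mon := .m M45 M6
def M47 : Mon := .m M19 Mon.x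
def M48 : Mon := .m M30 Mon.a
def M49 : Mon := .m M2 M6
def M50 : Mon := .m M4 Mon.a
def M51 : Mon := .m Mon.x M50
def M52 : Mon := .m M3 Mon.a
def M53 : Mon := .m Mon.y M52
def M54 : Mon := .m M9 M6
def M55 : Mon := .m Mon.b M18
def M56 : Mon := .m M8 Mon.x

end Pool.Agent.Helper341.Alt.W3
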