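import Pool.Agent.Helper341.Alt.W3.Word
set_option autoImplicit false

/-! Soundness of the integral certificates. -/

namespace Pool.Agent.Helper341.Alt.W3
open Pool.Agent.Helper817.AltCert Pool.Agent.Helper928.Nuc.Tens

/-- sign -/
def sg (b : Bool) : ℤ := if b then -1 else 1
lemma sg_false : sg false = 1 := rfl
lemma sg_true : sg true = -1 := rfl
lemma sg_not (b : Bool) : sg (Bool.rec true false b) = - sg b := by cases b <;> rfl
lemma sg_xor (b c : Bool) : sg (Bool.rec c (Bool.rec true false c) b) = sg b * sg c := by cases b <;> cases c <;> rfl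

lemma app_eq {α : Type} (l l' : List α) : app l l' = l ++ l' := by
  induction l with
  | nil => rfl
  | cons c l ih => rw [List.cons_append, ← ih]; rfl

section sums
variable {G : Type} [AddCommGroup G]

/-- signed sum -/
def ss (g : ℕ → G) (l : SL) : G := (l.map fun c => sg c.2 • g c.1).sum
lemma ss_nil (g : ℕ → G) : ss g [] = 0 := rfl
lemma ss_cons (g : ℕ → G) (c : ℕ × Bool) (l : SL) : ss g (c :: l) = sg c.2 • g c.1 + ss g l := rfl
lemma ss_append (g : ℕ → G) (l l' : SL) : ss g (l ++ l') = ss g l + ss g l' := by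
  unfold ss; rw [List.map_append, List.sum_append]

/-- signed weighted sum -/
def vs (g : ℕ → G) (V : VL) : G := (V.map fun c => (sg c.2.1 * (c.2.2 : ℤ)) • g c.1).sum
lemma vs_nil (g : ℕ → G) : vs g [] = 0 := rfl
lemma vs_cons (g : ℕ → G) (c : ℕ × (Bool × ℕ)) (V : VL) : vs g (c :: V) = (sg c.2.1 * (c.2.2 : ℤ)) • g c.1 + vs g V := rfl

/-- words of given sign, shifted -/
def pe (k : ℕ) (l : SL) : List (ℕ × ℕ) := (l.filter fun c => !c.2).map fun c => (c.1 * 8 ^ k, 1)
def ne (k : ℕ) (l : SL) : List (ℕ × ℕ) := (l.filter fun c => c.2).map fun c => (c.1 * 8 ^ k, 1)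
def pv' (V : VL) : List (ℕ × ℕ) := (V.filter fun c => !c.2.1).map fun c => (c.1, c.2.2)
def nv' (V : VL) : List (ℕ × ℕ) := (V.filter fun c => c.2.1).map fun c => (c.1, c.2.2)

lemma pe_cons (k : ℕ) (c : ℕ × Bool) (l : SL) : pe k (c :: l) = if c.2 then pe k l else (c.1 * 8 ^ k, 1) :: pe k l := by
  unfold pe; cases h : c.2 <;> simp [h]
lemma ne_cons (k : ℕ) (c : ℕ × Bool) (l : SL) : ne k (c :: l) = if c.2 then (c.1 * 8 ^ k, 1) :: ne k l else ne k l := by
  unfold ne; cases h : c.2 <;> simp [h]
lemma pv_cons (c : ℕ × (Bool × ℕ)) (V : VL) : pv' (c :: V) = if c.2.1 then pv' V else (c.1, c.2.2) :: pv' V := by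
  unfold pv'; cases h : c.2.1 <;> simp [h]
lemma nv_cons (c : ℕ × (Bool × ℕ)) (V : VL) : nv' (c :: V) = if c.2.1 then (c.1, c.2.2) :: nv' V else nv' V := by
  unfold nv'; cases h : c.2.1 <;> simp [h]

lemma lsum_cons' (g : ℕ → G) (q : ℕ × ℕ) (L : List (ℕ × ℕ)) : lsum g (q :: L) = q.2 • g q.1 + lsum g L := rfl
lemma lsum_nil' (g : ℕ → G) : lsum g [] = 0 := rfl

/-- product -/
def conv (L L' : List (ℕ × ℕ)) : List (ℕ × ℕ) := L.flatMap fun p => L'.map fun q => (p.1 + q.1, p.2 * q.2)

lemma conv_cons (p : ℕ × ℕ) (L L' : List (ℕ × ℕ)) :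
    conv (p :: L) L' = (L'.map fun q => (p.1 + q.1, p.2 * q.2)) ++ conv L L' := rfl

lemma lsum_conv (g : ℕ → G) (L L' : List (ℕ × ℕ)) :
    lsum g (conv L L') = lsum (fun c => lsum (fun d => g (c + d)) L') L := by
  induction L with
  | nil => rfl
  | cons p L ih =>
    rw [conv_cons, lsum_append, ih, lsum_cons']
    congr 1
    clear ih
    induction L' with
    | nil => rw [List.map_nil, lsum_nil', lsum_nil', smul_zero]
    | cons q L' ih => rw [List.map_cons, lsum_cons', lsum_cons', ih, smul_add, mul_smul]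

/-- the positive and negative lists of a product -/
def GP (g : GI) : List (ℕ × ℕ) := conv (pe g.k g.E) (pv' g.V) ++ conv (ne g.k g.E) (nv' g.V)
def GN (g : GI) : List (ℕ × ℕ) := conv (pe g.k g.E) (nv' g.V) ++ conv (ne g.k g.E) (pv' g.V)

lemma lsum_pe (g : ℕ → G) (k : ℕ) (l : SL) : lsum g (pe k l) - lsum g (ne k l) = ss (fun c => g (c * 8 ^ k)) l := by
  induction l with
  | nil => unfold pe ne; simp [lsum_nil', ss_nil]
  | cons c l ih =>
    rw [pe_cons, ne_cons, ss_cons, ← ih]
    obtain ⟨c, s⟩ := c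
    cases s
    · simp only [Bool.false_eq_true, if_false, lsum_cons', one_smul, sg_false]; abel
    · simp only [if_true, lsum_cons', one_smul, sg_true, neg_smul]; abel

lemma lsum_pv (g : ℕ → G) (V : VL) : lsum g (pv' V) - lsum g (nv' V) = vs g V := by
  induction V with
  | nil => unfold pv' nv'; simp [lsum_nil', vs_nil]
  | cons c V ih =>
    rw [pv_cons, nv_cons, vs_cons, ← ih]
    obtain ⟨c, s, m⟩ := c
    cases s
    · simp only [Bool.false_eq_true, if_false, lsum_cons', sg_false, one_mul, natCast_zsmul]; abel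
    · simp only [if_true, lsum_cons', sg_true, neg_mul, one_mul, neg_smul, natCast_zsmul]; abel

lemma lsum_add (g h : ℕ → G) (L : List (ℕ × ℕ)) : lsum (fun c => g c + h c) L = lsum g L + lsum h L := by
  induction L with
  | nil => simp [lsum_nil']
  | cons p L ih => simp only [lsum_cons', ih, smul_add]; abel
lemma lsum_sub (g h : ℕ → G) (L : List (ℕ × ℕ)) : lsum (fun c => g c - h c) L = lsum g L - lsum h L := by
  induction L with
  | nil => simp [lsum_nil']
  | cons p L ih => simp only [lsum_cons', ih, smul_sub]; abel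
lemma ss_sub (g h : ℕ → G) (L : SL) : ss (fun c => g c - h c) L = ss g L - ss h L := by
  induction L with
  | nil => simp [ss_nil]
  | cons p L ih => simp only [ss_cons, ih, smul_sub]; abel

/-- the signed double sum of a product -/
def ds (g : ℕ → G) (i : GI) : G := ss (fun c => vs (fun d => g (c * 8 ^ i.k + d)) i.V) i.E

lemma lsum_GP (g : ℕ → G) (i : GI) : lsum g (GP i) - lsum g (GN i) = ds g i := by
  unfold GP GN ds
  rw [lsum_append, lsum_append, lsum_conv, lsum_conv, lsum_conv, lsum_conv]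
  rw [show ∀ p q r s : G, p + q - (r + s) = (p - r) - (s - q) from fun p q r s => by abel,
    ← lsum_sub, ← lsum_sub]
  simp only [lsum_pv]
  exact lsum_pe (fun c => vs (fun d => g (c + d)) i.V) i.k i.E

/-- lists of all products -/
def LP' (l : List GI) : List (ℕ × ℕ) := l.flatMap GP
def LN' (l : List GI) : List (ℕ × ℕ) := l.flatMap GN
lemma LP_cons (i : GI) (l : List GI) : LP' (i :: l) = GP i ++ LP' l := rfl
lemma LN_cons (i : GI) (l : List GI) : LN' (i :: l) = GN i ++ LN' l := rfl

/-- sum of all products -/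
def sds (g : ℕ → G) (l : List GI) : G := (l.map (ds g)).sum
lemma sds_nil (g : ℕ → G) : sds g [] = 0 := rfl
lemma sds_cons (g : ℕ → G) (i : GI) (l : List GI) : sds g (i :: l) = ds g i + sds g l := rfl
lemma sds_append (g : ℕ → G) (l l' : List GI) : sds g (l ++ l') = sds g l + sds g l' := by
  unfold sds; rw [List.map_append, List.sum_append]

lemma lsum_LP' (g : ℕ → G) (l : List GI) : lsum g (LP' l) - lsum g (LN' l) = sds g l := by
  induction l with
  | nil => unfold LP' LN'; simp [lsum_nil', sds_nil]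
  | cons i l ih =>
    rw [LP_cons, LN_cons, lsum_append, lsum_append, sds_cons, ← ih, ← lsum_GP]
    abel
end sums

/-! ### The numerical functions -/

lemma lsum_consN (g : ℕ → ℕ) (q : ℕ × ℕ) (L : List (ℕ × ℕ)) : lsum g (q :: L) = q.2 * g q.1 + lsum g L := rfl

lemma sl (x e : ℕ) : Nat.shiftLeft x e = x * 2 ^ e := Nat.shiftLeft_eq x e

lemma wp_eq (w k : ℕ) (l : SL) : wp w k l = lsum (fun c => (2 ^ w) ^ c) (pe k l) := by
  induction l with
  | nil => rfl
  | cons c l ih =>
    obtain ⟨c, s⟩ := c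
    rw [pe_cons]
    cases s
    · show Nat.add (Nat.shiftLeft 1 (Nat.mul w (Nat.mul c (Nat.pow 8 k)))) (wp w k l) = _
      simp only [Bool.false_eq_true, if_false, lsum_consN, ← ih]
      rw [sl, one_mul, one_mul, ← pow_mul]; rfl
    · show wp w k l = _
      simp only [if_true, ← ih]
lemma wn_eq (w k : ℕ) (l : SL) : wn w k l = lsum (fun c => (2 ^ w) ^ c) (ne k l) := by
  induction l with
  | nil => rfl
  | cons c l ih =>
    obtain ⟨c, s⟩ := c
    rw [ne_cons]
    cases s
    · show wn w k l = _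
      simp only [Bool.false_eq_true, if_false, ← ih]
    · show Nat.add (Nat.shiftLeft 1 (Nat.mul w (Nat.mul c (Nat.pow 8 k)))) (wn w k l) = _
      simp only [if_true, lsum_consN, ← ih]
      rw [sl, one_mul, one_mul, ← pow_mul]; rfl
lemma vp_eq (w : ℕ) (V : VL) : vp w V = lsum (fun c => (2 ^ w) ^ c) (pv' V) := by
  induction V with
  | nil => rfl
  | cons c V ih =>
    obtain ⟨c, s, m⟩ := c
    rw [pv_cons]
    cases s
    · show Nat.add (Nat.shiftLeft m (Nat.mul w c)) (vp w V) = _
      simp only [Bool.false_eq_true, if_false, lsum_consN, ← ih]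
      rw [sl, ← pow_mul]; rfl
    · show vp w V = _
      simp only [if_true, ← ih]
lemma vn_eq (w : ℕ) (V : VL) : vn w V = lsum (fun c => (2 ^ w) ^ c) (nv' V) := by
  induction V with
  | nil => rfl
  | cons c V ih =>
    obtain ⟨c, s, m⟩ := c
    rw [nv_cons]
    cases s
    · show vn w V = _
      simp only [Bool.false_eq_true, if_false, ← ih]
    · show Nat.add (Nat.shiftLeft m (Nat.mul w c)) (vn w V) = _
      simp only [if_true, lsum_consN, ← ih]
      rw [sl, ← pow_mul]; rfl

lemma lsum_convN (w : ℕ) (L L' : List (ℕ × ℕ)) :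
    lsum (fun c => (2 ^ w) ^ c) (conv L L') = lsum (fun c => (2 ^ w) ^ c) L * lsum (fun c => (2 ^ w) ^ c) L' := by
  induction L with
  | nil => show 0 = 0 * _; rw [zero_mul]
  | cons p L ih =>
    rw [conv_cons, lsum_append, ih, lsum_consN, add_mul]
    congr 1
    clear ih
    induction L' with
    | nil => show 0 = _ * 0; rw [mul_zero]
    | cons q L' ih => rw [List.map_cons, lsum_consN, lsum_consN, ih, mul_add, pow_add]; ring

lemma gP_eq (w : ℕ) (i : GI) : gP w i = lsum (fun c => (2 ^ w) ^ c) (GP i) := by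
  unfold GP
  rw [lsum_append, lsum_convN, lsum_convN, ← wp_eq, ← wn_eq, ← vp_eq, ← vn_eq]; rfl
lemma gN_eq (w : ℕ) (i : GI) : gN w i = lsum (fun c => (2 ^ w) ^ c) (GN i) := by
  unfold GN
  rw [lsum_append, lsum_convN, lsum_convN, ← wp_eq, ← wn_eq, ← vp_eq, ← vn_eq]; rfl
lemma itsP_eq (w : ℕ) (l : List GI) : its (gP w) l = lsum (fun c => (2 ^ w) ^ c) (LP' l) := by
  induction l with
  | nil => rfl
  | cons i l ih => rw [LP_cons, lsum_append, ← ih, ← gP_eq]; rfl
lemma itsN_eq (w : ℕ) (l : List GI) : its (gN w) l = lsum (fun c => (2 ^ w) ^ c) (LN' l) := by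
  induction l with
  | nil => rfl
  | cons i l ih => rw [LN_cons, lsum_append, ← ih, ← gN_eq]; rfl

/-- the numerical check proves equality of all signed sums -/
theorem num_sound {G : Type} [AddCommGroup G] (g : ℕ → G) (l : List GI) (T : SL) (h : num l T = true) :
    sds g l = ss g T := by
  unfold num at h
  cases h1 : Nat.ble (Nat.succ (Nat.add (its (gP 0) l) (wn 0 0 T))) (Nat.pow 2 32) with
  | false => rw [h1] at h; cases h
  | true =>
    rw [h1] at h
    cases h2 : Nat.ble (Nat.succ (Nat.add (its (gN 0) l) (wp 0 0 T))) (Nat.pow 2 32) with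
    | false => rw [h2] at h; cases h
    | true =>
      rw [h2] at h
      have h1 : its (gP 0) l + wn 0 0 T < 2 ^ 32 := Nat.le_of_ble_eq_true h1
      have h2 : its (gN 0) l + wp 0 0 T < 2 ^ 32 := Nat.le_of_ble_eq_true h2
      have h3 : its (gP 32) l + wn 32 0 T = its (gN 32) l + wp 32 0 T := Nat.eq_of_beq_eq_true h
      rw [itsP_eq, wn_eq, ← lsum_append] at h1 h3
      rw [itsN_eq, wp_eq, ← lsum_append] at h2 h3
      simp only [pow_zero, one_pow] at h1 h2
      have h4 := lsum_inj (2 ^ 32) _ _ h1 h2 h3 g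
      rw [lsum_append, lsum_append] at h4
      rw [← lsum_LP']
      have h5 := lsum_pe g 0 T
      simp only [pow_zero, mul_one] at h5
      rw [← h5]
      have : ∀ p q r s : G, p + q = r + s → p - r = s - q := by
        intro p q r s h
        rw [sub_eq_sub_iff_add_eq_add, h, add_comm]
      exact this _ _ _ _ h4

/-! ### Evaluation -/
section ev
variable {A : Type} [NonUnitalNonAssocRing A] (a b x y : A)

/-- left multiplication -/
abbrev LL (u : A) : AddMonoid.End A := AddMonoidHom.mulLeft u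
/-- right multiplication -/
abbrev RR (u : A) : AddMonoid.End A := AddMonoidHom.mulRight u

/-- the letters -/
def op : ℕ → AddMonoid.End A
  | 0 => LL a
  | 1 => RR a
  | 2 => LL b
  | 3 => RR b
  | 4 => LL x
  | 5 => RR x
  | 6 => LL y
  | _ => RR y

/-- the operator of a word -/
def ev : ℕ → ℕ → AddMonoid.End A
  | 0, _ => 1
  | n + 1, c => ev n (c / 8) * op a b x y (c % 8)

lemma ev_zero (c : ℕ) : ev a b x y 0 c = 1 := rfl
lemma ev_succ (n c : ℕ) : ev a b x y (n + 1) c = ev a b x y n (c / 8) * op a b x y (c % 8) := rfl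

lemma ev_cat (m k c1 c2 : ℕ) (h : c2 < 8 ^ k) :
    ev a b x y (m + k) (c1 * 8 ^ k + c2) = ev a b x y m c1 * ev a b x y k c2 := by
  induction k generalizing c2 with
  | zero =>
    have : c2 = 0 := by simpa using h
    subst this
    rw [ev_zero]; simp
  | succ k ih =>
    have h0 : c1 * 8 ^ (k + 1) = 8 * (c1 * 8 ^ k) := by ring
    have h1 : (c1 * 8 ^ (k + 1) + c2) / 8 = c1 * 8 ^ k + c2 / 8 := by
      rw [h0]; omega
    have h2 : (c1 * 8 ^ (k + 1) + c2) % 8 = c2 % 8 := by
      rw [h0]; omega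
    have h3 : c2 / 8 < 8 ^ k := by
      rw [pow_succ] at h; omega
    rw [← add_assoc, ev_succ, ev_succ, h1, h2, ih _ h3, mul_assoc]

lemma ev_one (d : ℕ) (h : d < 8) : ev a b x y 1 d = op a b x y d := by
  rw [ev_succ, ev_zero, one_mul, Nat.mod_eq_of_lt h]

/-- all words of a list have length `n` -/
def Bd (n : ℕ) (l : SL) : Prop := ∀ c ∈ l, c.1 < 8 ^ n

lemma Bd.append {n : ℕ} {l l' : SL} (h : Bd n l) (h' : Bd n l') : Bd n (l ++ l') := by
  intro c hc
  rcases List.mem_append.mp hc with h1 | h1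
  · exact h c h1
  · exact h' c h1
lemma Bd.cons_iff {n : ℕ} {c : ℕ × Bool} {l : SL} : Bd n (c :: l) ↔ c.1 < 8 ^ n ∧ Bd n l := by
  unfold Bd; simp

/-- the operator of a list of words -/
def el (n : ℕ) (l : SL) : AddMonoid.End A := ss (ev a b x y n) l

lemma el_append (n : ℕ) (l l' : SL) : el a b x y n (l ++ l') = el a b x y n l + el a b x y n l' := ss_append _ _ _
lemma el_nil (n : ℕ) : el a b x y n [] = 0 := rfl
lemma el_cons (n : ℕ) (c : ℕ × Bool) (l : SL) : el a b x y n (c :: l) = sg c.2 • ev a b x y n c.1 + el a b x y n l := rfl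

lemma sneg_cons (c : ℕ × Bool) (l : SL) : sneg (c :: l) = (c.1, Bool.rec true false c.2) :: sneg l := rfl
lemma sneg_bd {n : ℕ} {l : SL} (h : Bd n l) : Bd n (sneg l) := by
  induction l with
  | nil => intro c hc; cases hc
  | cons c l ih =>
    rw [Bd.cons_iff] at h
    rw [sneg_cons, Bd.cons_iff]
    exact ⟨h.1, ih h.2⟩
lemma el_sneg (n : ℕ) (l : SL) : el a b x y n (sneg l) = - el a b x y n l := by
  induction l with
  | nil => show (0 : AddMonoid.End A) = - 0; rw [neg_zero]
  | cons c l ih => rw [sneg_cons, el_cons, el_cons, ih, sg_not, neg_add, neg_smul]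

lemma scat_cons (k : ℕ) (c : ℕ × Bool) (l1 l2 : SL) : scat k (c :: l1) l2 =
    l2.map (fun d => (c.1 * 8 ^ k + d.1, Bool.rec d.2 (Bool.rec true false d.2) c.2)) ++ scat k l1 l2 := by
  have : ∀ l : SL, (List.rec (motive := fun _ => SL) (scat k l1 l2)
      (fun d _ ih2 => (Nat.add (Nat.mul c.1 (Nat.pow 8 k)) d.1, Bool.rec d.2 (Bool.rec true false d.2) c.2) :: ih2) l : SL) =
        l.map (fun d => (c.1 * 8 ^ k + d.1, Bool.rec d.2 (Bool.rec true false d.2) c.2)) ++ scat k l1 l2 := by
    intro l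
    induction l with
    | nil => rfl
    | cons d l ih => rw [List.map_cons, List.cons_append, ← ih]; rfl
  exact this l2

lemma scat_nil (k : ℕ) (l2 : SL) : scat k [] l2 = [] := rfl

lemma lt_cat {m k c d : ℕ} (h1 : c < 8 ^ m) (h2 : d < 8 ^ k) : c * 8 ^ k + d < 8 ^ (m + k) :=
  calc c * 8 ^ k + d < c * 8 ^ k + 8 ^ k := by omega
    _ = (c + 1) * 8 ^ k := by ring
    _ ≤ 8 ^ m * 8 ^ k := Nat.mul_le_mul_right _ h1
    _ = 8 ^ (m + k) := (pow_add 8 m k).symm

lemma scat_bd {m k n : ℕ} {l1 l2 : SL} (h1 : Bd m l1) (h2 : Bd k l2) (hn : n = m + k) : Bd n (scat k l1 l2) := by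
  subst hn
  induction l1 with
  | nil => intro c hc; rw [scat_nil] at hc; cases hc
  | cons c l1 ih =>
    rw [scat_cons]
    rw [Bd.cons_iff] at h1
    refine Bd.append ?_ (ih h1.2)
    intro e he
    obtain ⟨d, hd, rfl⟩ := List.mem_map.mp he
    exact lt_cat h1.1 (h2 d hd)

lemma el_map (m k : ℕ) (c : ℕ × Bool) (l : SL) (h : Bd k l) :
    el a b x y (m + k) (l.map (fun d => (c.1 * 8 ^ k + d.1, Bool.rec d.2 (Bool.rec true false d.2) c.2))) =
      (sg c.2 • ev a b x y m c.1) * el a b x y k l := by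
  induction l with
  | nil => rw [List.map_nil, el_nil, el_nil, mul_zero]
  | cons d l ih =>
    rw [Bd.cons_iff] at h
    rw [List.map_cons, el_cons, el_cons, ih h.2, mul_add]
    congr 1
    show sg (Bool.rec d.2 (Bool.rec true false d.2) c.2) • ev a b x y (m + k) (c.1 * 8 ^ k + d.1) = _
    rw [ev_cat a b x y m k c.1 d.1 h.1, sg_xor, smul_mul_assoc, mul_smul_comm, smul_smul]

lemma el_scat {m k n : ℕ} {l1 l2 : SL} (h2 : Bd k l2) (hn : n = m + k) :
    el a b x y n (scat k l1 l2) = el a b x y m l1 * el a b x y k l2 := by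
  subst hn
  induction l1 with
  | nil => rw [scat_nil, el_nil, el_nil, zero_mul]
  | cons c l1 ih => rw [scat_cons, el_append, el_map a b x y m k c l2 h2, ih, el_cons, add_mul]

/-- value of a monomial -/
def val : Mon → A
  | .a => a
  | .b => b
  | .x => x
  | .y => y
  | .m u v => val u * val v

/-- `p` describes the left and right multiplications by `u` -/
structure Des (p : ℕ × (SL × SL)) (u : A) : Prop where
  bl : Bd p.1 p.2.1
  br : Bd p.1 p.2.2
  l : el a b x y p.1 p.2.1 = LL u
  r : el a b x y p.1 p.2.2 = RR u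

lemma XX_bd {p q : ℕ × (SL × SL)} {u v : A} (hp : Des a b x y p u) (hq : Des a b x y q v) :
    Bd (p.1 + q.1) (XX p q) := by
  unfold XX
  rw [app_eq]
  exact (scat_bd hp.bl hq.br rfl).append (sneg_bd (scat_bd hq.br hp.bl (add_comm _ _)))

lemma XX_el {p q : ℕ × (SL × SL)} {u v : A} (hp : Des a b x y p u) (hq : Des a b x y q v) :
    el a b x y (p.1 + q.1) (XX p q) = LL u * RR v - RR v * LL u := by
  unfold XX
  rw [app_eq, el_append, el_sneg, el_scat a b x y hq.br rfl, el_scat a b x y hp.bl (add_comm _ _), hp.l, hq.r,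
    sub_eq_add_neg]

end ev

section alt
variable {A : Type} [NonUnitalNonAssocRing A] (hA : IsAlt A)
include hA

lemma LL_mul (u v : A) : LL (u * v) = LL u * LL v + (LL u * RR v - RR v * LL u) := by
  ext m
  have h := hA.as_right u v m
  unfold as at h
  show (u * v) * m = u * (v * m) + (u * (m * v) - (u * m) * v)
  linear_combination (norm := abel) h

lemma RR_mul (u v : A) : RR (u * v) = RR v * RR u - (LL u * RR v - RR v * LL u) := by
  ext m
  have h := hA.as_left m u v
  unfold as at h
  show m * (u * v) = (m * u) * v - (u * (m * v) - (u * m) * v)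
  linear_combination (norm := abel) -h

lemma X_symm (u v : A) : (LL u * RR v - RR v * LL u) + (LL v * RR u - RR u * LL v) = 0 := by
  ext m
  have h1 := hA.as_left u m v
  have h2 := hA.as_right m u v
  have h3 := hA.as_left m v u
  unfold as at h1 h2 h3
  show (u * (m * v) - (u * m) * v) + (v * (m * u) - (v * m) * u) = 0
  linear_combination (norm := abel) h2 - h1 - h3

lemma X_self (u : A) : LL u * RR u - RR u * LL u = 0 := by
  ext m
  have h1 := hA.as_left u m u
  have h2 := hA.right u m
  unfold as at h1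
  show u * (m * u) - (u * m) * u = 0
  rw [h2, sub_self, neg_zero] at h1
  linear_combination (norm := abel) -h1

variable (a b x y : A)

omit hA in
lemma des_letter (i : ℕ) (u : A) (hi : 2 * i + 1 < 8) (h0 : op a b x y (2 * i) = LL u) (h1 : op a b x y (2 * i + 1) = RR u) :
    Des a b x y (1, ([(2 * i, false)], [(2 * i + 1, false)])) u where
  bl := by intro c hc; simp only [List.mem_singleton] at hc; subst hc; simp; omega
  br := by intro c hc; simp only [List.mem_singleton] at hc; subst hc; simp; omega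
  l := by
    show el a b x y 1 [(2 * i, false)] = LL u
    rw [el_cons, el_nil, add_zero, sg_false, one_smul, ev_one _ _ _ _ _ (by show 2 * i < 8; omega), h0]
  r := by
    show el a b x y 1 [(2 * i + 1, false)] = RR u
    rw [el_cons, el_nil, add_zero, sg_false, one_smul, ev_one _ _ _ _ _ (by show 2 * i + 1 < 8; omega), h1]

lemma des_mul {p q : ℕ × (SL × SL)} {u v : A} (hp : Des a b x y p u) (hq : Des a b x y q v) :
    Des a b x y (p.1 + q.1, (app (scat q.1 p.2.1 q.2.1) (XX p q), app (scat p.1 q.2.2 p.2.2) (sneg (XX p q)))) (u * v) where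
  bl := by
    show Bd (p.1 + q.1) (app (scat q.1 p.2.1 q.2.1) (XX p q))
    rw [app_eq]; exact (scat_bd hp.bl hq.bl rfl).append (XX_bd a b x y hp hq)
  br := by
    show Bd (p.1 + q.1) (app (scat p.1 q.2.2 p.2.2) (sneg (XX p q)))
    rw [app_eq]; exact (scat_bd hq.br hp.br (add_comm _ _)).append (sneg_bd (XX_bd a b x y hp hq))
  l := by
    show el a b x y (p.1 + q.1) (app (scat q.1 p.2.1 q.2.1) (XX p q)) = _
    rw [app_eq, el_append, el_scat a b x y hq.bl rfl, XX_el a b x y hp hq, hp.l, hq.l, LL_mul hA]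
  r := by
    show el a b x y (p.1 + q.1) (app (scat p.1 q.2.2 p.2.2) (sneg (XX p q))) = _
    rw [app_eq, el_append, el_sneg, el_scat a b x y hp.br (add_comm _ _), XX_el a b x y hp hq, hp.r, hq.r, RR_mul hA]
    exact (sub_eq_add_neg _ _).symm

theorem des (u : Mon) : Des a b x y (ex u) (val a b x y u) := by
  induction u with
  | a => exact des_letter a b x y 0 a (by norm_num) rfl rfl
  | b => exact des_letter a b x y 1 b (by norm_num) rfl rfl
  | x => exact des_letter a b x y 2 x (by norm_num) rfl rfl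
  | y => exact des_letter a b x y 3 y (by norm_num) rfl rfl
  | m u v ihu ihv => exact des_mul hA a b x y ihu ihv

/-- the words of an item evaluate to zero -/
lemma iE_zero (i : Item) : Bd (iD i) (iE i) ∧ el a b x y (iD i) (iE i) = 0 := by
  cases i with
  | r u v k ws =>
    have hu := des hA a b x y u
    have hv := des hA a b x y v
    show Bd ((ex u).1 + (ex v).1) (app (XX (ex u) (ex v)) (XX (ex v) (ex u))) ∧
      el a b x y ((ex u).1 + (ex v).1) (app (XX (ex u) (ex v)) (XX (ex v) (ex u))) = 0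
    rw [app_eq]
    have h1 := XX_bd a b x y hv hu
    have h2 := XX_el a b x y hv hu
    rw [add_comm (ex v).1] at h1 h2
    refine ⟨(XX_bd a b x y hu hv).append h1, ?_⟩
    rw [el_append, XX_el a b x y hu hv, h2]
    exact X_symm hA _ _
  | q u k ws =>
    have hu := des hA a b x y u
    show Bd ((ex u).1 + (ex u).1) (XX (ex u) (ex u)) ∧ el a b x y ((ex u).1 + (ex u).1) (XX (ex u) (ex u)) = 0
    refine ⟨XX_bd a b x y hu hu, ?_⟩
    rw [XX_el a b x y hu hu]
    exact X_self hA _

omit hA in
lemma fil_mem (p : ℕ → Bool) (V : VL) (c : ℕ × (Bool × ℕ)) (h : c ∈ fil p V) : p c.1 = true := by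
  induction V with
  | nil => cases h
  | cons d V ih =>
    have e : fil p (d :: V) = Bool.rec (motive := fun _ => VL) (fil p V) (d :: fil p V) (p d.1) := rfl
    rw [e] at h
    cases hp : p d.1 with
    | false => rw [hp] at h; exact ih h
    | true =>
      rw [hp] at h
      rcases List.mem_cons.mp h with h | h
      · rw [h]; exact hp
      · exact ih h

omit hA in
/-- swapping the two sums -/
lemma ds_swap {G : Type} [AddCommGroup G] (g : ℕ → G) (k : ℕ) (E : SL) (V : VL)
    (h : ∀ c ∈ V, ss (fun e => g (e * 8 ^ k + c.1)) E = 0) : ds g ⟨k, E, V⟩ = 0 := by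
  unfold ds
  show ss (fun c => vs (fun d => g (c * 8 ^ k + d)) V) E = 0
  induction V with
  | nil =>
    simp only [vs_nil]
    induction E with
    | nil => rfl
    | cons e E ih => rw [ss_cons, ih, smul_zero, add_zero]; intro c hc; cases hc
  | cons c V ih =>
    simp only [vs_cons]
    have e1 : ∀ (f1 f2 : ℕ → G) (E : SL), ss (fun c => f1 c + f2 c) E = ss f1 E + ss f2 E := by
      intro f1 f2 E
      induction E with
      | nil => simp [ss_nil]
      | cons e E ih => simp only [ss_cons, ih, smul_add]; abel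
    have e2 : ∀ (m : ℤ) (f : ℕ → G) (E : SL), ss (fun c => m • f c) E = m • ss f E := by
      intro m f E
      induction E with
      | nil => simp [ss_nil]
      | cons e E ih => simp only [ss_cons, ih, smul_add]; rw [smul_comm]
    rw [e1, e2, h c List.mem_cons_self, smul_zero, zero_add]
    exact ih (fun d hd => h d (List.mem_cons_of_mem _ hd))

omit hA in
/-- a word `w1`, followed by the words of `E`, followed by the word `w2` -/
lemma el_mid (m D k w1 w2 : ℕ) (h2 : w2 < 8 ^ k) (E : SL) (hE : Bd D E) :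
    ss (fun e => ev a b x y (m + (D + k)) (e * 8 ^ k + (w1 * 8 ^ (D + k) + w2))) E =
      ev a b x y m w1 * (el a b x y D E * ev a b x y k w2) := by
  induction E with
  | nil => rw [ss_nil, el_nil, zero_mul, mul_zero]
  | cons e E ih =>
    rw [Bd.cons_iff] at hE
    rw [ss_cons, ih hE.2, el_cons, add_mul, mul_add]
    congr 1
    rw [show e.1 * 8 ^ k + (w1 * 8 ^ (D + k) + w2) = w1 * 8 ^ (D + k) + (e.1 * 8 ^ k + w2) by ring,
      ev_cat a b x y m (D + k) w1 _ (lt_cat hE.1 h2), ev_cat a b x y D k e.1 w2 h2, smul_mul_assoc, mul_smul_comm]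

omit hA in
lemma okD {n D k w : ℕ} (h : ok n D k w = true) : ∃ m w1 w2, n = m + (D + k) ∧ w2 < 8 ^ k ∧ w = w1 * 8 ^ (D + k) + w2 := by
  unfold ok at h
  cases h1 : Nat.ble (Nat.add D k) n with
  | false => rw [h1] at h; cases h
  | true =>
    rw [h1] at h
    cases h2 : Nat.ble (Nat.succ w) (Nat.pow 8 n) with
    | false => rw [h2] at h; cases h
    | true =>
      rw [h2] at h
      have h1 : D + k ≤ n := Nat.le_of_ble_eq_true h1
      have h3 : w % 8 ^ (D + k) < 8 ^ k := Nat.le_of_ble_eq_true h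
      exact ⟨n - (D + k), w / 8 ^ (D + k), w % 8 ^ (D + k), by omega, h3, (Nat.div_add_mod' w _).symm⟩

lemma lf_zero (n : ℕ) (i : Item) : ds (ev a b x y n) (lf n i) = 0 := by
  obtain ⟨hb, h0⟩ := iE_zero hA a b x y i
  refine ds_swap _ _ _ _ ?_
  intro c hc
  obtain ⟨m, w1, w2, rfl, h2, hw⟩ := okD (fil_mem _ _ c hc)
  rw [hw, el_mid a b x y m (iD i) (iK i) w1 w2 h2 _ hb, h0, zero_mul, mul_zero]

lemma lfs_zero (n : ℕ) (l : List Item) : sds (ev a b x y n) (lfs n l) = 0 := by
  induction l with
  | nil => rfl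
  | cons i l ih =>
    show sds _ (lf n i :: lfs n l) = 0
    rw [sds_cons, ih, lf_zero hA a b x y n i, add_zero]

/-- admissible products -/
structure GOK (n : ℕ) (g : GI) : Prop where
  k : g.k ≤ n
  E : Bd (n - g.k) g.E
  V : ∀ c ∈ g.V, c.1 < 8 ^ g.k

omit hA in
lemma ds_eq (n : ℕ) (g : GI) (h : GOK n g) : ds (ev a b x y n) g = el a b x y (n - g.k) g.E * vs (ev a b x y g.k) g.V := by
  obtain ⟨k, E, V⟩ := g
  obtain ⟨hk, hE, hV⟩ := h
  simp only at hk hE hV
  unfold ds
  show ss (fun c => vs (fun d => ev a b x y n (c * 8 ^ k + d)) V) E = el a b x y (n - k) E * vs (ev a b x y k) V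
  have e : ∀ c, vs (fun d => ev a b x y n (c * 8 ^ k + d)) V = ev a b x y (n - k) c * vs (ev a b x y k) V := by
    intro c
    clear hE
    induction V with
    | nil => rw [vs_nil, vs_nil, mul_zero]
    | cons d V ih =>
      rw [vs_cons, vs_cons, ih (fun e he => hV e (List.mem_cons_of_mem _ he)), mul_add, mul_smul_comm]
      congr 2
      have := ev_cat a b x y (n - k) k c d.1 (hV d List.mem_cons_self)
      rwa [Nat.sub_add_cancel hk] at this
  simp only [e]
  induction E with
  | nil => rw [ss_nil, el_nil, zero_mul]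
  | cons c E ih =>
    rw [Bd.cons_iff] at hE
    rw [ss_cons, el_cons, ih hE.2, add_mul, smul_mul_assoc]

lemma inn_ok (n : ℕ) (i : Item) (h : iD i + iK i = n) : GOK n (inn i) ∧ ds (ev a b x y n) (inn i) = 0 := by
  obtain ⟨hb, h0⟩ := iE_zero hA a b x y i
  have hok : GOK n (inn i) := by
    refine ⟨?_, ?_, ?_⟩
    · show iK i ≤ n; omega
    · show Bd (n - iK i) (iE i)
      rw [show n - iK i = iD i by omega]; exact hb
    · intro c hc
      exact Nat.le_of_ble_eq_true (fil_mem (fun s => Nat.ble (Nat.succ s) (Nat.pow 8 (iK i))) (iW i) c hc)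
  refine ⟨hok, ?_⟩
  rw [ds_eq a b x y n _ hok]
  show el a b x y (n - iK i) (iE i) * _ = 0
  rw [show n - iK i = iD i by omega, h0, zero_mul]

lemma inns_ok (n : ℕ) (l : List Item) : (∀ g ∈ inns n l, GOK n g) ∧ sds (ev a b x y n) (inns n l) = 0 := by
  induction l with
  | nil => exact ⟨(fun g hg => by cases hg), rfl⟩
  | cons i l ih =>
    have e : inns n (i :: l) = Bool.rec (motive := fun _ => List GI) (inns n l) (inn i :: inns n l)
      (Nat.beq (Nat.add (iD i) (iK i)) n) := rfl
    rw [e]
    cases h : Nat.beq (Nat.add (iD i) (iK i)) n with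
    | false => exact ih
    | true =>
      obtain ⟨h1, h2⟩ := inn_ok hA a b x y n i (Nat.eq_of_beq_eq_true h)
      refine ⟨?_, ?_⟩
      · intro g hg
        rcases List.mem_cons.mp hg with hg | hg
        · rw [hg]; exact h1
        · exact ih.1 g hg
      · show sds _ (inn i :: inns n l) = 0
        rw [sds_cons, h2, ih.2, add_zero]

omit hA in
lemma res_cons (m d : ℕ) (c : ℕ × Bool) (l : SL) :
    res m d (c :: l) = if c.1 / 8 ^ m = d then (c.1 % 8 ^ m, c.2) :: res m d l else res m d l := by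
  have e : res m d (c :: l) = Bool.rec (motive := fun _ => SL) (res m d l) ((c.1 % 8 ^ m, c.2) :: res m d l)
    (Nat.beq (c.1 / 8 ^ m) d) := rfl
  rw [e]
  cases h : Nat.beq (c.1 / 8 ^ m) d with
  | false =>
    have : ¬ (c.1 / 8 ^ m = d) := fun h' => by rw [h', Nat.beq_refl] at h; cases h
    rw [if_neg this]
  | true => rw [if_pos (Nat.eq_of_beq_eq_true h)]

omit hA in
lemma res_bd (m d : ℕ) (l : SL) : Bd m (res m d l) := by
  induction l with
  | nil => intro c hc; cases hc
  | cons c l ih =>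
    rw [res_cons]
    split_ifs
    · rw [Bd.cons_iff]; exact ⟨Nat.mod_lt _ (by positivity), ih⟩
    · exact ih

omit hA in
lemma el_res (m : ℕ) (l : SL) (h : Bd (m + 1) l) :
    el a b x y (m + 1) l = ∑ d ∈ Finset.range 8, op a b x y d * el a b x y m (res m d l) := by
  induction l with
  | nil =>
    have : ∀ d, el a b x y m (res m d []) = 0 := fun d => rfl
    simp only [this, mul_zero, Finset.sum_const_zero, el_nil]
  | cons c l ih =>
    rw [Bd.cons_iff] at h
    have e : ∀ d, op a b x y d * el a b x y m (res m d (c :: l)) =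
        (if c.1 / 8 ^ m = d then op a b x y d * (sg c.2 • ev a b x y m (c.1 % 8 ^ m)) else 0) +
          op a b x y d * el a b x y m (res m d l) := by
      intro d
      rw [res_cons]
      split_ifs
      · rw [el_cons, mul_add]
      · rw [zero_add]
    simp only [e]
    rw [Finset.sum_add_distrib, ← ih h.2, el_cons, Finset.sum_ite_eq]
    have h8 : c.1 / 8 ^ m < 8 := by
      rw [Nat.div_lt_iff_lt_mul (by positivity), mul_comm, ← pow_succ]; exact h.1
    rw [if_pos (Finset.mem_range.mpr h8)]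
    congr 1
    have h1 := ev_cat a b x y 1 m (c.1 / 8 ^ m) (c.1 % 8 ^ m) (Nat.mod_lt _ (by positivity))
    rw [Nat.div_add_mod', add_comm 1 m, ev_one _ _ _ _ _ h8] at h1
    rw [h1, mul_smul_comm]

omit hA in
lemma ress_ok (m d : ℕ) (l : List GI) (h : ∀ g ∈ l, GOK (m + 1) g) (hk : kle m l = true) :
    ∀ g ∈ ress m d l, GOK m g := by
  induction l with
  | nil => intro g hg; cases hg
  | cons i l ih =>
    have hk' : Nat.ble i.k m = true ∧ kle m l = true := by
      have e : kle m (i :: l) = Bool.rec (motive := fun _ => Bool) false (kle m l) (Nat.ble i.k m) := rfl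
      rw [e] at hk
      cases h1 : Nat.ble i.k m with
      | false => rw [h1] at hk; cases hk
      | true => rw [h1] at hk; exact ⟨rfl, hk⟩
    intro g hg
    have hg' : g ∈ (⟨i.k, res (m - i.k) d i.E, i.V⟩ : GI) :: ress m d l := hg
    rcases List.mem_cons.mp hg' with hg' | hg'
    · subst hg'
      exact ⟨Nat.le_of_ble_eq_true hk'.1, res_bd _ _ _, (h i List.mem_cons_self).V⟩
    · exact ih (fun g hg => h g (List.mem_cons_of_mem _ hg)) hk'.2 g hg'

omit hA in
lemma sds_ress (m : ℕ) (l : List GI) (h : ∀ g ∈ l, GOK (m + 1) g) (hk : kle m l = true) :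
    sds (ev a b x y (m + 1)) l = ∑ d ∈ Finset.range 8, op a b x y d * sds (ev a b x y m) (ress m d l) := by
  induction l with
  | nil =>
    have : ∀ d, sds (ev a b x y m) (ress m d []) = 0 := fun d => rfl
    simp only [this, mul_zero, Finset.sum_const_zero, sds_nil]
  | cons i l ih =>
    have hk' : Nat.ble i.k m = true ∧ kle m l = true := by
      have e : kle m (i :: l) = Bool.rec (motive := fun _ => Bool) false (kle m l) (Nat.ble i.k m) := rfl
      rw [e] at hk
      cases h1 : Nat.ble i.k m with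
      | false => rw [h1] at hk; cases hk
      | true => rw [h1] at hk; exact ⟨rfl, hk⟩
    have hkm : i.k ≤ m := Nat.le_of_ble_eq_true hk'.1
    have hi := h i List.mem_cons_self
    have hi2 := hi.E
    have hs : m + 1 - i.k = (m - i.k) + 1 := by omega
    rw [hs] at hi2
    have e : ∀ d, op a b x y d * sds (ev a b x y m) (ress m d (i :: l)) =
        (op a b x y d * el a b x y (m - i.k) (res (m - i.k) d i.E)) * vs (ev a b x y i.k) i.V +
          op a b x y d * sds (ev a b x y m) (ress m d l) := by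
      intro d
      show op a b x y d * sds (ev a b x y m) ((⟨i.k, res (m - i.k) d i.E, i.V⟩ : GI) :: ress m d l) = _
      rw [sds_cons, mul_add, ds_eq a b x y m (⟨i.k, res (m - i.k) d i.E, i.V⟩ : GI) ⟨hkm, res_bd _ _ _, hi.V⟩, mul_assoc]
    simp only [e]
    rw [Finset.sum_add_distrib, ← ih (fun g hg => h g (List.mem_cons_of_mem _ hg)) hk'.2, sds_cons,
      ← Finset.sum_mul, ← el_res a b x y _ _ hi2, ds_eq a b x y (m + 1) _ hi, hs]

omit hA in
lemma an_iff {p q : Bool} (h : an p q = true) : p = true ∧ q = true := by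
  cases p
  · cases h
  · exact ⟨rfl, h⟩

/-- soundness of the check -/
theorem chk_sound (c : Cert) : ∀ (n : ℕ) (P : List GI) (T : SL), (∀ g ∈ P, GOK n g) → Bd n T → chk c n P T = true →
    sds (ev a b x y n) P = el a b x y n T := by
  induction c with
  | l its =>
    intro n P T hP hT h
    have h1 : num (app (lfs n its) P) T = true := h
    have h2 := num_sound (ev a b x y n) _ _ h1
    rw [app_eq, sds_append, lfs_zero hA a b x y n its, zero_add] at h2
    exact h2
  | n its c0 c1 c2 c3 c4 c5 c6 c7 h0 h1 h2 h3 h4 h5 h6 h7 =>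
    intro n P T hP hT h
    cases n with
    | zero => cases h
    | succ m =>
      set P' := app (inns (Nat.succ m) its) P with hP'
      obtain ⟨hin1, hin2⟩ := inns_ok hA a b x y (Nat.succ m) its
      have hPok : ∀ g ∈ P', GOK (m + 1) g := by
        intro g hg
        rw [hP', app_eq] at hg
        rcases List.mem_append.mp hg with hg | hg
        · exact hin1 g hg
        · exact hP g hg
      have hsum : sds (ev a b x y (m + 1)) P = sds (ev a b x y (m + 1)) P' := by
        rw [hP', app_eq, sds_append]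
        rw [show sds (ev a b x y (m + 1)) (inns (Nat.succ m) its) = 0 from hin2, zero_add]
      have hch : an (kle m P')
          (an (chk c0 m (ress m 0 P') (res m 0 T))
          (an (chk c1 m (ress m 1 P') (res m 1 T))
          (an (chk c2 m (ress m 2 P') (res m 2 T))
          (an (chk c3 m (ress m 3 P') (res m 3 T))
          (an (chk c4 m (ress m 4 P') (res m 4 T))
          (an (chk c5 m (ress m 5 P') (res m 5 T))
          (an (chk c6 m (ress m 6 P') (res m 6 T))
            (chk c7 m (ress m 7 P') (res m 7 T))))))))) = true := h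
      obtain ⟨hk, g0⟩ := an_iff hch
      obtain ⟨g0, g1⟩ := an_iff g0
      obtain ⟨g1, g2⟩ := an_iff g1
      obtain ⟨g2, g3⟩ := an_iff g2
      obtain ⟨g3, g4⟩ := an_iff g3
      obtain ⟨g4, g5⟩ := an_iff g4
      obtain ⟨g5, g6⟩ := an_iff g5
      obtain ⟨g6, g7⟩ := an_iff g6
      rw [hsum, sds_ress a b x y m P' hPok hk, el_res a b x y m T hT]
      simp only [Finset.sum_range_succ, Finset.sum_range_zero, zero_add]
      rw [h0 m _ _ (ress_ok m 0 P' hPok hk) (res_bd _ _ _) g0, h1 m _ _ (ress_ok m 1 P' hPok hk) (res_bd _ _ _) g1,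
        h2 m _ _ (ress_ok m 2 P' hPok hk) (res_bd _ _ _) g2, h3 m _ _ (ress_ok m 3 P' hPok hk) (res_bd _ _ _) g3,
        h4 m _ _ (ress_ok m 4 P' hPok hk) (res_bd _ _ _) g4, h5 m _ _ (ress_ok m 5 P' hPok hk) (res_bd _ _ _) g5,
        h6 m _ _ (ress_ok m 6 P' hPok hk) (res_bd _ _ _) g6, h7 m _ _ (ress_ok m 7 P' hPok hk) (res_bd _ _ _) g7]

/-- a certificate shows that a list of words evaluates to zero -/
theorem cert_sound (c : Cert) (n : ℕ) (T : SL) (hT : Bd n T) (h : chk c n [] T = true) : el a b x y n T = 0 :=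
  (chk_sound hA a b x y c n [] T (fun g hg => by cases hg) hT h).symm

end alt

end Pool.Agent.Helper341.Alt.W3
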