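import Pool.Agent.Helper341.Alt.W3.Data1
set_option autoImplicit false

/-! The target. -/

namespace Pool.Agent.Helper341.Alt.W3

/-- words of the left multiplication -/
noncomputable def lw (u : Mon) : SL := (ex u).2.1
/-- words of the right multiplication -/
noncomputable def rw (u : Mon) : SL := (ex u).2.2
/-- words of `L_u - R_u` -/
noncomputable def aw (u : Mon) : SL := app (lw u) (sneg (rw u))
/-- words of `w ↦ (u, v, w)` -/
noncomputable def xw (u v : Mon) : SL := XX (ex u) (ex v)

/-- the operator `c ↦ N1 a b c` -/
noncomputable def NN : SL :=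
  sneg (scat 3 (aw .a) (app (scat 1 (app (lw (.m .a .b)) (sneg (lw (.m .b .a)))) (aw .a)) (scat 2 (aw .a) (xw .a .b))))

/-- the operator `z ↦ N1 a b (x, y, z)` -/
noncomputable def T : SL := scat 2 NN (xw .x .y)

end Pool.Agent.Helper341.Alt.W3
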