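import Pool.Agent.Helper817.AltCert
set_option autoImplicit false

/-!
Operator words over the integers.

The letters are left and right multiplications by four elements `a`, `b`, `x`, `y` of an alternative
ring; a word of length `n` is a number below `8 ^ n` (base `8` digits, the last digit acts first);
formal sums are compared as natural numbers in base `2 ^ 32` (parameter `w = 32`), their norm is the
same number in base `1` (parameter `w = 0`).
-/

namespace Pool.Agent.Helper341.Alt.W3
open Pool.Agent.Helper817.AltCert Pool.Agent.Helper928.Nuc.Tens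

/-- concatenation of lists -/
noncomputable def app {α : Type} (l l' : List α) : List α :=
  List.rec (motive := fun _ => List α) l' (fun c _ ih => c :: ih) l

/-- change of signs (`true` means minus) -/
noncomputable def sneg (l : List (ℕ × Bool)) : List (ℕ × Bool) :=
  List.rec (motive := fun _ => List (ℕ × Bool)) [] (fun c _ ih => (c.1, Bool.rec true false c.2) :: ih) l

/-- product of lists of signed words, the second one of words of length `k` -/
noncomputable def scat (k : ℕ) (l1 l2 : List (ℕ × Bool)) : List (ℕ × Bool) :=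
  List.rec (motive := fun _ => List (ℕ × Bool)) []
    (fun x _ ih => List.rec (motive := fun _ => List (ℕ × Bool)) ih
      (fun y _ ih2 => (Nat.add (Nat.mul x.1 (Nat.pow 8 k)) y.1, Bool.rec y.2 (Bool.rec true false y.2) x.2) :: ih2) l2) l1

/-- nonassociative monomials in four letters -/
inductive Mon
  | a : Mon
  | b : Mon
  | x : Mon
  | y : Mon
  | m : Mon → Mon → Mon

abbrev SL := List (ℕ × Bool)

/-- the words of `L_u R_v - R_v L_u` -/
noncomputable def XX (p q : ℕ × (SL × SL)) : SL :=
  app (scat q.1 p.2.1 q.2.2) (sneg (scat p.1 q.2.2 p.2.1))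

/-- degree, words of the left multiplication and words of the right multiplication -/
noncomputable def ex (u : Mon) : ℕ × (SL × SL) :=
  Mon.rec (motive := fun _ => ℕ × (SL × SL)) (1, ([(0, false)], [(1, false)])) (1, ([(2, false)], [(3, false)]))
    (1, ([(4, false)], [(5, false)])) (1, ([(6, false)], [(7, false)]))
    (fun _ _ p q => (Nat.add p.1 q.1, (app (scat q.1 p.2.1 q.2.1) (XX p q),
      app (scat p.1 q.2.2 p.2.2) (sneg (XX p q))))) u

/-- weighted sum of the positive words, each followed by `k` zero digits -/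
noncomputable def wp (w k : ℕ) (l : SL) : ℕ :=
  List.rec (motive := fun _ => ℕ) 0
    (fun c _ ih => Bool.rec (Nat.add (Nat.shiftLeft 1 (Nat.mul w (Nat.mul c.1 (Nat.pow 8 k)))) ih) ih c.2) l
/-- weighted sum of the negative words, each followed by `k` zero digits -/
noncomputable def wn (w k : ℕ) (l : SL) : ℕ :=
  List.rec (motive := fun _ => ℕ) 0
    (fun c _ ih => Bool.rec ih (Nat.add (Nat.shiftLeft 1 (Nat.mul w (Nat.mul c.1 (Nat.pow 8 k)))) ih) c.2) l

/-- is this shift admissible? -/
noncomputable def ok (n D k w : ℕ) : Bool :=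
  Bool.rec false (Bool.rec false (Nat.ble (Nat.succ (Nat.mod w (Nat.pow 8 (Nat.add D k)))) (Nat.pow 8 k))
    (Nat.ble (Nat.succ w) (Nat.pow 8 n))) (Nat.ble (Nat.add D k) n)

/-- lists of shifts; an entry is `(shift, sign, coefficient)` -/
abbrev VL := List (ℕ × (Bool × ℕ))

/-- filter -/
noncomputable def fil (p : ℕ → Bool) (V : VL) : VL :=
  List.rec (motive := fun _ => VL) [] (fun c _ ih => Bool.rec ih (c :: ih) (p c.1)) V

/-- weighted sum of positive shifts -/
noncomputable def vp (w : ℕ) (V : VL) : ℕ :=
  List.rec (motive := fun _ => ℕ) 0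
    (fun c _ ih => Bool.rec (Nat.add (Nat.shiftLeft c.2.2 (Nat.mul w c.1)) ih) ih c.2.1) V
/-- weighted sum of negative shifts -/
noncomputable def vn (w : ℕ) (V : VL) : ℕ :=
  List.rec (motive := fun _ => ℕ) 0
    (fun c _ ih => Bool.rec ih (Nat.add (Nat.shiftLeft c.2.2 (Nat.mul w c.1)) ih) c.2.1) V

/-- a family of multiples of relations: `r u v k ws` and, for `u = v`, `q u k ws` -/
inductive Item
  | r : Mon → Mon → ℕ → VL → Item
  | q : Mon → ℕ → VL → Item

/-- degree, number of final digits, words of the relation, shifts -/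
noncomputable def iD (i : Item) : ℕ := Item.rec (motive := fun _ => ℕ)
  (fun u v _ _ => Nat.add (ex u).1 (ex v).1) (fun u _ _ => Nat.add (ex u).1 (ex u).1) i
noncomputable def iK (i : Item) : ℕ := Item.rec (motive := fun _ => ℕ) (fun _ _ k _ => k) (fun _ k _ => k) i
noncomputable def iE (i : Item) : SL := Item.rec (motive := fun _ => SL)
  (fun u v _ _ => app (XX (ex u) (ex v)) (XX (ex v) (ex u))) (fun u _ _ => XX (ex u) (ex u)) i
noncomputable def iW (i : Item) : VL := Item.rec (motive := fun _ => VL) (fun _ _ _ ws => ws) (fun _ _ ws => ws) i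

/-- a product of a list of words and a list of shifts below `8 ^ k` -/
structure GI where
  k : ℕ
  E : SL
  V : VL

/-- positive part of a product -/
noncomputable def gP (w : ℕ) (g : GI) : ℕ :=
  Nat.add (Nat.mul (wp w g.k g.E) (vp w g.V)) (Nat.mul (wn w g.k g.E) (vn w g.V))
/-- negative part of a product -/
noncomputable def gN (w : ℕ) (g : GI) : ℕ :=
  Nat.add (Nat.mul (wp w g.k g.E) (vn w g.V)) (Nat.mul (wn w g.k g.E) (vp w g.V))

/-- sum over a list -/
noncomputable def its (f : GI → ℕ) (l : List GI) : ℕ :=
  List.rec (motive := fun _ => ℕ) 0 (fun i _ ih => Nat.add (f i) ih) l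

/-- the product of an item, shifts arbitrary -/
noncomputable def lf (n : ℕ) (i : Item) : GI := ⟨iK i, iE i, fil (ok n (iD i) (iK i)) (iW i)⟩
/-- the product of an item, shifts below `8 ^ k` -/
noncomputable def inn (i : Item) : GI := ⟨iK i, iE i, fil (fun s => Nat.ble (Nat.succ s) (Nat.pow 8 (iK i))) (iW i)⟩

noncomputable def lfs (n : ℕ) (l : List Item) : List GI :=
  List.rec (motive := fun _ => List GI) [] (fun i _ ih => lf n i :: ih) l
/-- items of degree `n` with all shifts final -/
noncomputable def inns (n : ℕ) (l : List Item) : List GI :=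
  List.rec (motive := fun _ => List GI) []
    (fun i _ ih => Bool.rec ih (inn i :: ih) (Nat.beq (Nat.add (iD i) (iK i)) n)) l

/-- the words with first digit `d`, without it -/
noncomputable def res (m d : ℕ) (l : SL) : SL :=
  List.rec (motive := fun _ => SL) []
    (fun c _ ih => Bool.rec ih ((Nat.mod c.1 (Nat.pow 8 m), c.2) :: ih) (Nat.beq (Nat.div c.1 (Nat.pow 8 m)) d)) l

noncomputable def ress (m d : ℕ) (l : List GI) : List GI :=
  List.rec (motive := fun _ => List GI) [] (fun g _ ih => ⟨g.k, res (Nat.sub m g.k) d g.E, g.V⟩ :: ih) l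

/-- all `k` at most `m` -/
noncomputable def kle (m : ℕ) (l : List GI) : Bool :=
  List.rec (motive := fun _ => Bool) true (fun g _ ih => Bool.rec false ih (Nat.ble g.k m)) l

/-- certificates -/
inductive Cert
  | l : List Item → Cert
  | n : List Item → Cert → Cert → Cert → Cert → Cert → Cert → Cert → Cert → Cert

/-- numerical check -/
noncomputable def num (l : List GI) (T : SL) : Bool :=
  Bool.rec false (Bool.rec false
    (Nat.beq (Nat.add (its (gP 32) l) (wn 32 0 T)) (Nat.add (its (gN 32) l) (wp 32 0 T)))
    (Nat.ble (Nat.succ (Nat.add (its (gN 0) l) (wp 0 0 T))) (Nat.pow 2 32)))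
    (Nat.ble (Nat.succ (Nat.add (its (gP 0) l) (wn 0 0 T))) (Nat.pow 2 32))

/-- conjunction -/
noncomputable def an (p q : Bool) : Bool := Bool.rec false q p

/-- the check -/
noncomputable def chk (c : Cert) : ℕ → List GI → SL → Bool :=
  Cert.rec (motive := fun _ => ℕ → List GI → SL → Bool)
    (fun l n P T => num (app (lfs n l) P) T)
    (fun l _ _ _ _ _ _ _ _ h0 h1 h2 h3 h4 h5 h6 h7 n P T =>
      Nat.rec (motive := fun _ => Bool) false
        (fun m _ => an (kle m (app (inns (Nat.succ m) l) P))
          (an (h0 m (ress m 0 (app (inns (Nat.succ m) l) P)) (res m 0 T))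
          (an (h1 m (ress m 1 (app (inns (Nat.succ m) l) P)) (res m 1 T))
          (an (h2 m (ress m 2 (app (inns (Nat.succ m) l) P)) (res m 2 T))
          (an (h3 m (ress m 3 (app (inns (Nat.succ m) l) P)) (res m 3 T))
          (an (h4 m (ress m 4 (app (inns (Nat.succ m) l) P)) (res m 4 T))
          (an (h5 m (ress m 5 (app (inns (Nat.succ m) l) P)) (res m 5 T))
          (an (h6 m (ress m 6 (app (inns (Nat.succ m) l) P)) (res m 6 T))
            (h7 m (ress m 7 (app (inns (Nat.succ m) l) P)) (res m 7 T))))))))))
        n) c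

end Pool.Agent.Helper341.Alt.W3
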